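import Pool.Agent.Work.MP_66fdf3_co.Nec

namespace Pool.Agent.Work.MP_66fdf3_co.Old.Necessity

open Pool.Agent.Work.MP_66fdf3_co

/-- A finite group of order different from two whose Cayley table has a near-orthogonal mate has a
commutator subgroup of even order. -/
theorem result (G : Type) [Group G] [Finite G] (h2 : Nat.card G ≠ 2)
    (h : HasNearOrthogonalMate G) : Even (Nat.card (commutator G)) :=
  necessity h2 h

end Pool.Agent.Work.MP_66fdf3_co.Old.Necessity
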