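import Pool.Agent.Work.MP_66fdf3_co.Main

namespace Pool.Agent.Work.MP_66fdf3_co.Old.Solvable

open Pool.Agent.Work.MP_66fdf3_co

/-- Classification for solvable groups, and for all groups with a Hall subgroup of odd order and
index a power of two. -/
theorem result (G : Type) [Group G] [Finite G] (h2 : Nat.card G ≠ 2)
    (h : Group.IsSolvable G ∨ ∃ Q : Subgroup G, Odd (Nat.card Q) ∧ ∃ k : ℕ, Q.index = 2 ^ k) :
    HasNearOrthogonalMate G ↔ Even (Nat.card (commutator G)) :=
  main_compl h2 h

end Pool.Agent.Work.MP_66fdf3_co.Old.Solvable
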